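import Pool.Agent.Helper35.HG.StE

/-!
# Project HG (MP_925021_gt), module RG4: the initial condition
-/

set_option autoImplicit false

namespace Pool.Agent.Helper45.HG

open Helper35.HG Helper35.HC Helper35.HSF Helper35.MS Helper35.PI Helper35.PI2 Helper32.CL

/-- module RG4 -/
theorem hRG4 : StRG4 := by
  intro n k hn hk X x hX hXx hx
  have hx0 : 0 ≤ x := hX.trans hXx
  have hnR : (16 : ℝ) ≤ n := by exact_mod_cast hn
  have hkR : 8 * ((k : ℝ) + 1) ≤ n := by exact_mod_cast hk
  have hn0 : (0 : ℝ) < n := by linarith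
  have hk0 : (0 : ℝ) ≤ k := Nat.cast_nonneg k
  have hs0 : 0 < sn n := by unfold sn; positivity
  have hs1 : sn n ≤ 12 / 256 := by
    unfold sn
    rw [div_le_div_iff₀ (by positivity) (by norm_num)]
    nlinarith
  have hw1 : 1 ≤ Real.sqrt (1 + sn n * x) := by
    rw [Real.one_le_sqrt]
    nlinarith [mul_nonneg hs0.le hx0]
  have hwW : Real.sqrt (1 + sn n * X) ≤ Real.sqrt (1 + sn n * x) := by
    apply Real.sqrt_le_sqrt
    nlinarith [mul_le_mul_of_nonneg_left hXx hs0.le]
  have hW : Real.sqrt (1 + sn n * X) ≤ 1 + 3 / 128 * X := by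
    rw [Real.sqrt_le_left (by positivity)]
    nlinarith [mul_le_mul_of_nonneg_right hs1 hX, sq_nonneg X]
  -- the coefficient of (1/3 - x)
  have he0 : (k + 2) * (27 / 40 * (sn n / (2 * Real.sqrt (1 + sn n * x)))) ≤ 475 / 10000 := by
    have h1 : sn n / (2 * Real.sqrt (1 + sn n * x)) ≤ sn n / 2 := by
      apply div_le_div_of_nonneg_left hs0.le (by norm_num)
      linarith
    have h2 : ((k : ℝ) + 2) * (27 / 40 * (sn n / (2 * Real.sqrt (1 + sn n * x)))) ≤
        ((k : ℝ) + 2) * (27 / 40 * (sn n / 2)) := by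
      apply mul_le_mul_of_nonneg_left _ (by linarith)
      linarith
    refine h2.trans ?_
    have h3 : ((k : ℝ) + 2) * (27 / 40 * (sn n / 2)) = 81 / 20 * (((k : ℝ) + 2) / (n : ℝ) ^ 2) := by
      unfold sn
      field_simp
      ring
    rw [h3]
    have h4 : ((k : ℝ) + 2) / (n : ℝ) ^ 2 ≤ 3 / 256 := by
      rw [div_le_div_iff₀ (by positivity) (by norm_num)]
      nlinarith
    linarith
  have hh0 : hh X * (1 + 13 / 4 * X) = 1 := by
    unfold hh
    field_simp
  have key : (4325 : ℝ) / 10000 - 2975 / 10000 * X ≤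
      263 / 1000 + 23 / 100 * X + 17 / 100 * hh X - 9 / 1280 * X := by
    have hp : 0 < 1 + 13 / 4 * X := by positivity
    have h1 : 0 ≤ (263 / 1000 + 23 / 100 * X + 17 / 100 * hh X - 9 / 1280 * X -
        (4325 / 10000 - 2975 / 10000 * X)) * (1 + 13 / 4 * X) := by
      have h2 : (263 / 1000 + 23 / 100 * X + 17 / 100 * hh X - 9 / 1280 * X -
        (4325 / 10000 - 2975 / 10000 * X)) * (1 + 13 / 4 * X) =
        (263 / 1000 + 23 / 100 * X - 9 / 1280 * X -
        (4325 / 10000 - 2975 / 10000 * X)) * (1 + 13 / 4 * X) + 17 / 100 := by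
        linear_combination (17 / 100 : ℝ) * hh0
      rw [h2]
      nlinarith [sq_nonneg (X - 9 / 1000)]
    have h3 := nonneg_of_mul_nonneg_left h1 hp
    linarith
  have hE : (pP n).E = 1 / 4 := rfl
  have hJ : (pP n).J X = Jf X - 3 / 5 * (Real.sqrt (1 + sn n * X) - 1) := rfl
  have hP : (pP n).P x = 3 / 10 * (Real.sqrt (1 + sn n * x) - 1) := rfl
  have he : (pP n).e x = 27 / 40 * (sn n / (2 * Real.sqrt (1 + sn n * x))) := rfl
  rw [hE, hJ, hP, he]
  unfold Jf
  have h5 : (k + 2) * (27 / 40 * (sn n / (2 * Real.sqrt (1 + sn n * x)))) * (1 / 3 - x) ≤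
      475 / 10000 * (1 / 3 - x) := mul_le_mul_of_nonneg_right he0 (by linarith)
  linarith

end Pool.Agent.Helper45.HG
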