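import Pool.Agent.Helper35.HG.StA

/-!
Project HG (MP_925021_gt), module RNF: the reaction terms in a frame.
-/

set_option autoImplicit false

namespace Helper45.HG

open Helper35.HG Helper35.HC Helper35.HSF Helper35.MS Helper35.PI Helper35.PI2 Helper32.CL
open Finset

variable {n N m : ℕ}

/-- `V = Σ a_α e_α - c x₀` -/
def Rp (e : Fin m → EE N) (x₀ V : EE N) (a : Fin m → ℝ) (c : ℝ) : Prop :=
  V = (∑ α, a α • e α) - c • x₀

theorem rp_inner {e : Fin m → EE N} {x₀ V V' : EE N} {a a' : Fin m → ℝ} {c c' r : ℝ}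
    (on : Orthonormal ℝ e) (ex : ∀ α, (inner ℝ (e α) x₀ : ℝ) = 0) (nx : ‖x₀‖ ^ 2 = 1 / r)
    (h : Rp e x₀ V a c) (h' : Rp e x₀ V' a' c') :
    (inner ℝ V V' : ℝ) = ∑ α, a α * a' α + c * c' / r := by
  rw [h, h', inner_sub_left, inner_sub_right, inner_sub_right, on.inner_sum]
  have h1 : (inner ℝ (∑ α, a α • e α) (c' • x₀) : ℝ) = 0 := by
    rw [inner_smul_right, sum_inner]
    simp [inner_smul_left, ex]
  have h2 : (inner ℝ (c • x₀) (∑ α, a' α • e α) : ℝ) = 0 := by
    rw [inner_smul_left, inner_sum]
    have ex' : ∀ α, (inner ℝ x₀ (e α) : ℝ) = 0 := fun α => by rw [real_inner_comm]; exact ex α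
    simp [inner_smul_right, ex']
  have h3 : (inner ℝ (c • x₀) (c' • x₀) : ℝ) = c * c' / r := by
    rw [inner_smul_left, inner_smul_right, real_inner_self_eq_norm_sq, nx]
    simp only [conj_trivial]
    ring
  rw [h1, h2, h3]
  simp

theorem rp_sum {ι : Type} (s : Finset ι) {e : Fin m → EE N} {x₀ : EE N} {V : ι → EE N}
    {a : ι → Fin m → ℝ} {c : ι → ℝ} (w : ι → ℝ) (h : ∀ k ∈ s, Rp e x₀ (V k) (a k) (c k)) :
    Rp e x₀ (∑ k ∈ s, w k • V k) (fun α => ∑ k ∈ s, w k * a k α) (∑ k ∈ s, w k * c k) := by
  unfold Rp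
  have h1 : ∑ k ∈ s, w k • V k = ∑ k ∈ s, ((∑ α, (w k * a k α) • e α) - (w k * c k) • x₀) := by
    refine sum_congr rfl fun k hk => ?_
    have h2 : V k = (∑ α, a k α • e α) - c k • x₀ := h k hk
    rw [h2, smul_sub, smul_sum, smul_smul]
    simp only [smul_smul]
  rw [h1, sum_sub_distrib, sum_comm, ← sum_smul]
  simp only [← sum_smul]

/-- sums -/
theorem S2 (f : Fin m → Fin n → Fin n → ℝ) (g K : Fin n → Fin n → ℝ) :
    ∑ a, ∑ b, (∑ α, f α a b + g a b) * K a b =
      ∑ α, ∑ a, ∑ b, f α a b * K a b + ∑ a, ∑ b, g a b * K a b := by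
  simp only [add_mul, sum_mul, sum_add_distrib]
  congr 1
  exact (sum_congr rfl fun a _ => sum_comm).trans sum_comm

section

variable {A : Fin n → Fin n → EE N} {H : Fin m → Fin n → Fin n → ℝ} {r : ℝ} {e : Fin m → EE N}
  {x₀ : EE N}

theorem rpA (h : NFm A H r e x₀) (i j : Fin n) :
    Rp e x₀ (A i j) (fun α => H α i j) (if i = j then r else 0) := by
  unfold Rp
  rw [h.eq]

theorem knA (h : NFm A H r e x₀) (β : Fin m) : kn A (e β) = H β := by
  funext i j
  unfold Helper35.HG.kn
  have h1 : A i j = (∑ α, H α i j • e α) - (if i = j then r else 0) • x₀ := rpA h i j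
  have h2 : (inner ℝ x₀ (e β) : ℝ) = 0 := by rw [real_inner_comm]; exact h.ex β
  rw [h1, inner_sub_left, inner_smul_left, h2, h.on.inner_left_fintype]
  simp

theorem rpAv (h : NFm A H r e x₀) (P : Fin n → ℝ) (k : Fin n) :
    Rp e x₀ (Av A P k) (fun α => mv (H α) P k) (r * P k) := by
  have h1 := rp_sum univ P (fun j _ => rpA h k j)
  unfold Rp at h1 ⊢
  unfold Av
  rw [h1]
  congr 1
  · refine sum_congr rfl fun α _ => ?_
    congr 1
    unfold mv
    exact sum_congr rfl fun j _ => mul_comm _ _
  · congr 1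
    simp [mul_comm]

theorem rpB (h : NFm A H r e x₀) (P Q : Fin n → ℝ) :
    Rp e x₀ (bilV A P Q) (fun α => bil (H α) P Q) (r * ∑ i, P i * Q i) := by
  have h0 : ∀ i ∈ (univ : Finset (Fin n)), Rp e x₀ (∑ j, (P i * Q j) • A i j)
      (fun α => ∑ j, (P i * Q j) * H α i j) (∑ j, (P i * Q j) * (if i = j then r else 0)) :=
    fun i _ => rp_sum univ (fun j => P i * Q j) (fun j _ => rpA h i j)
  have h1 := rp_sum univ (fun _ => (1 : ℝ)) h0
  unfold Rp at h1 ⊢
  unfold bilV
  simp only [one_smul, one_mul] at h1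
  rw [h1]
  congr 1
  · refine sum_congr rfl fun α _ => ?_
    congr 1
    unfold bil
    exact sum_congr rfl fun i _ => sum_congr rfl fun j _ => mul_comm _ _
  · congr 1
    rw [mul_sum]
    refine sum_congr rfl fun i _ => ?_
    simp [mul_comm]

theorem rpH (h : NFm A H r e x₀) :
    Rp e x₀ (Hv A) (fun α => ∑ i, H α i i) (n * r) := by
  have h1 := rp_sum univ (fun _ => (1 : ℝ)) (fun i (_ : i ∈ (univ : Finset (Fin n))) => rpA h i i)
  unfold Rp at h1 ⊢
  unfold Hv
  simp only [one_smul, one_mul] at h1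
  rw [h1]
  congr 1
  congr 1
  simp

theorem inAA (h : NFm A H r e x₀) (i j k l : Fin n) :
    (inner ℝ (A i j) (A k l) : ℝ) = ∑ α, H α i j * H α k l +
      (if i = j then 1 else 0) * (if k = l then r else 0) := by
  rw [rp_inner h.on h.ex h.nx (rpA h i j) (rpA h k l)]
  congr 1
  have := h.r0.ne'
  split_ifs <;> field_simp <;> ring

theorem inVV (h : NFm A H r e x₀) (P Q : Fin n → ℝ) (a b : Fin n) :
    (inner ℝ (Av A P a) (Av A Q b) : ℝ) = ∑ α, mv (H α) P a * mv (H α) Q b + r * (P a * Q b) := by
  rw [rp_inner h.on h.ex h.nx (rpAv h P a) (rpAv h Q b)]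
  congr 1
  have := h.r0.ne'
  field_simp

theorem inBA (h : NFm A H r e x₀) (P Q : Fin n → ℝ) (a b : Fin n) :
    (inner ℝ (bilV A P Q) (A a b) : ℝ) = ∑ α, bil (H α) P Q * H α a b +
      (∑ i, P i * Q i) * (if a = b then r else 0) := by
  rw [rp_inner h.on h.ex h.nx (rpB h P Q) (rpA h a b)]
  congr 1
  have := h.r0.ne'
  field_simp

theorem inHA (h : NFm A H r e x₀) (a b : Fin n) :
    (inner ℝ (Hv A) (A a b) : ℝ) = ∑ α, (∑ i, H α i i) * H α a b +
      n * (if a = b then r else 0) := by
  rw [rp_inner h.on h.ex h.nx (rpH h) (rpA h a b)]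
  congr 1
  have := h.r0.ne'
  field_simp

theorem inHe (h : NFm A H r e x₀) (β : Fin m) :
    (inner ℝ (Hv A) (e β) : ℝ) = ∑ i, H β i i := by
  unfold Hv
  rw [sum_inner]
  exact sum_congr rfl fun i _ => congrFun (congrFun (knA h β) i) i

theorem sblA (h : NFm A H r e x₀) (c d : Fin n → ℝ) :
    Sbl A c d = ∑ α, (∑ i, mv (H α) c i * mv (H α) d i) + r * ∑ i, c i * d i := by
  unfold Sbl
  simp only [inVV h, sum_add_distrib]
  rw [sum_comm, mul_sum]

end

theorem fip_comm (X Y : Fin n → Fin n → ℝ) : fip X Y = fip Y X := by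
  unfold fip
  exact sum_congr rfl fun i _ => sum_congr rfl fun j _ => mul_comm _ _

theorem tr_mt (hn : 2 ≤ n) (X : Fin n → Fin n → ℝ) : ∑ i, X i i = n * mt X := by
  unfold Helper35.HC.mt
  have : (n : ℝ) ≠ 0 := by
    have : n ≠ 0 := by omega
    exact_mod_cast this
  field_simp

theorem ip0_fip (hn : 2 ≤ n) (X Y : Fin n → Fin n → ℝ) :
    ip0 X Y = fip X Y - n * mt X * mt Y := by
  have h1 : ∀ i : Fin n, ∑ j, tl X i j * tl Y i j =
      ∑ j, X i j * Y i j - mt X * Y i i - mt Y * X i i + mt X * mt Y := by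
    intro i
    have h2 : ∀ j, tl X i j * tl Y i j = X i j * Y i j - (if i = j then mt X * Y i j else 0)
        - (if i = j then mt Y * X i j else 0) + (if i = j then mt X * mt Y else 0) := by
      intro j
      unfold tl
      split_ifs <;> ring
    simp only [h2, sum_add_distrib, sum_sub_distrib, sum_ite_eq, mem_univ, if_true]
  unfold ip0 fip
  simp only [h1, sum_add_distrib, sum_sub_distrib, ← mul_sum]
  rw [tr_mt hn X, tr_mt hn Y]
  simp
  ring

open Matrix in
theorem cqF {K B : Fin n → Fin n → ℝ} (hK : SymS K) (hB : SymS B) :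
    cq K B = 2 * (∑ i, ∑ k, ∑ j, (∑ l, B i l * B k l) * (K i j * K j k)) -
      2 * (∑ i, ∑ j, K i j * ∑ a, ∑ b, B a i * B b j * K a b) := by
  set k : Matrix (Fin n) (Fin n) ℝ := Matrix.of K with hk
  set b : Matrix (Fin n) (Fin n) ℝ := Matrix.of B with hb
  have kt : kᵀ = k := by
    ext i j
    exact hK j i
  have bt : bᵀ = b := by
    ext i j
    exact hB j i
  have tm : ∀ M L : Matrix (Fin n) (Fin n) ℝ, trace (M * Lᵀ) = ∑ i, ∑ j, M i j * L i j := by
    intro M L
    simp [trace, mul_apply]
  have h1 : cq K B = trace ((k * b - b * k) * (k * b - b * k)ᵀ) := by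
    rw [tm]
    unfold cq
    refine sum_congr rfl fun i _ => sum_congr rfl fun j _ => ?_
    rw [pow_two, Matrix.sub_apply, mul_apply, mul_apply, ← sum_sub_distrib]
    rfl
  have h2 : (∑ i, ∑ k, ∑ j, (∑ l, B i l * B k l) * (K i j * K j k)) =
      trace (b * bᵀ * (k * k)ᵀ) := by
    rw [tm]
    refine sum_congr rfl fun i _ => sum_congr rfl fun j _ => ?_
    rw [← mul_sum, mul_apply, mul_apply]
    rfl
  have h3 : (∑ i, ∑ j, K i j * ∑ a, ∑ c, B a i * B c j * K a c) =
      trace (k * (bᵀ * k * b)ᵀ) := by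
    rw [tm]
    refine sum_congr rfl fun i _ => sum_congr rfl fun j _ => ?_
    congr 1
    rw [mul_apply, sum_comm]
    refine sum_congr rfl fun c _ => ?_
    rw [mul_apply, sum_mul]
    refine sum_congr rfl fun a _ => ?_
    simp only [transpose_apply, hk, hb, of_apply]
    ring
  rw [h1, h2, h3]
  simp only [transpose_sub, transpose_mul, kt, bt]
  have e1 : (k * b - b * k) * (b * k - k * b) =
      k * (b * b * k) - k * (b * k * b) - b * (k * b * k) + b * (k * k * b) := by
    noncomm_ring
  rw [e1, trace_add, trace_sub, trace_sub, trace_mul_comm k (b * b * k),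
    trace_mul_comm b (k * b * k), trace_mul_comm b (k * k * b)]
  have e2 : k * k * b * b = (k * k) * (b * b) := by noncomm_ring
  have e3 : b * b * k * k = (b * b) * (k * k) := by noncomm_ring
  have e4 : k * b * k * b = k * (b * k * b) := by noncomm_ring
  have e5 : k * (b * (k * b)) = k * (b * k * b) := by noncomm_ring
  rw [e2, e3, e4, trace_mul_comm (k * k) (b * b)]
  try rw [e5]
  ring

/-- **RNF** -/
theorem hRNF (hPXE : StPXE) : StRNF := by
  intro n N m hn A H r e x₀ h
  have hk := knA h 0
  have hn0 : (n : ℝ) ≠ 0 := by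
    have : n ≠ 0 := by omega
    exact_mod_cast this
  have hRN3 : RN3 A (e 0) = (n * mt (H 0)) ^ 2 * fip (H 0) (H 0)
      + 2 * (n * mt (H 0)) * (∑ j : Fin m, n * mt (H j.succ) * fip (H 0) (H j.succ))
      + 2 * n * r * (n * mt (H 0)) ^ 2 := by
    unfold RN3
    rw [hk, inHe h 0]
    simp only [inHA h]
    rw [S2 (fun α a b => (∑ i, H α i i) * H α a b) (fun a b => n * (if a = b then r else 0))
      (H 0)]
    have h1 : ∀ α, ∑ a, ∑ b, (∑ i, H α i i) * H α a b * H 0 a b =
        n * mt (H α) * fip (H 0) (H α) := by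
      intro α
      rw [← tr_mt hn, fip_comm]
      unfold fip
      rw [mul_sum]
      refine sum_congr rfl fun a _ => ?_
      rw [mul_sum]
      exact sum_congr rfl fun b _ => by ring
    have h2 : ∑ a, ∑ b, (n : ℝ) * (if a = b then r else 0) * H 0 a b =
        n * r * (n * mt (H 0)) := by
      rw [← tr_mt hn, mul_sum]
      refine sum_congr rfl fun a _ => ?_
      simp
    rw [h2]
    simp only [h1]
    rw [Fin.sum_univ_succ, tr_mt hn]
    ring
  refine ⟨?_, hRN3, ?_, ?_⟩
  · rw [ip0_fip hn]
    ring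
  · unfold RN2
    rw [hRN3]
    have hRNa : RNa A (e 0) = fip (H 0) (H 0) ^ 2 + 2 * r * (n * mt (H 0)) ^ 2 +
        ∑ j : Fin m, (cq (H 0) (H j.succ) + 2 * fip (H 0) (H j.succ) ^ 2) := by
      unfold RNa
      rw [hk]
      simp only [inAA h]
      have a1 : ∀ i j, ∑ a, ∑ b, (∑ α, H α a i * H α b j + (if a = i then 1 else 0) *
          (if b = j then r else 0)) * H 0 a b =
          ∑ α, ∑ a, ∑ b, H α a i * H α b j * H 0 a b + r * H 0 i j := by
        intro i j
        rw [S2 (fun α a b => H α a i * H α b j) (fun a b => (if a = i then 1 else 0) *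
          (if b = j then r else 0)) (H 0)]
        congr 1
        simp
      have a2 : ∀ i j, ∑ a, ∑ b, (∑ α, H α i j * H α a b + (if i = j then 1 else 0) *
          (if a = b then r else 0)) * H 0 a b =
          ∑ α, H α i j * fip (H 0) (H α) + (if i = j then r * (n * mt (H 0)) else 0) := by
        intro i j
        rw [S2 (fun α a b => H α i j * H α a b) (fun a b => (if i = j then 1 else 0) *
          (if a = b then r else 0)) (H 0)]
        congr 1
        · refine sum_congr rfl fun α _ => ?_
          rw [fip_comm]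
          unfold fip
          rw [mul_sum]
          refine sum_congr rfl fun a _ => ?_
          rw [mul_sum]
          exact sum_congr rfl fun b _ => by ring
        · rw [← tr_mt hn]
          split_ifs with hij
          · simp [mul_sum]
          · simp
      simp only [a1, a2]
      have a3 : ∀ i k, SA A i k = ∑ α, (∑ l, H α i l * H α k l) + (if i = k then r else 0) := by
        intro i k
        unfold SA
        simp only [inAA h, sum_add_distrib]
        rw [sum_comm]
        congr 1
        have : ∀ l, (if i = l then (1 : ℝ) else 0) * (if k = l then r else 0) =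
            if i = l then (if k = i then r else 0) else 0 := by
          intro l
          by_cases hi : i = l
          · subst hi
            simp
          · simp [hi]
        simp only [this, sum_ite_eq, mem_univ, if_true]
        by_cases hik : i = k
        · subst hik; rfl
        · simp [hik, Ne.symm hik]
      simp only [a3]
      -- the sums
      have b1 : (∑ i, ∑ j, H 0 i j * (-2 * (∑ α, ∑ a, ∑ b, H α a i * H α b j * H 0 a b +
          r * H 0 i j) + 2 * (∑ α, H α i j * fip (H 0) (H α) +
            (if i = j then r * (n * mt (H 0)) else 0)))) =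
          ∑ α, (-2 * (∑ i, ∑ j, H 0 i j * ∑ a, ∑ b, H α a i * H α b j * H 0 a b) +
            2 * fip (H 0) (H α) ^ 2) - 2 * r * fip (H 0) (H 0) +
            2 * r * (n * mt (H 0)) ^ 2 := by
        have c1 : ∀ i j, H 0 i j * (-2 * (∑ α, ∑ a, ∑ b, H α a i * H α b j * H 0 a b +
          r * H 0 i j) + 2 * (∑ α, H α i j * fip (H 0) (H α) +
            (if i = j then r * (n * mt (H 0)) else 0))) =
            ∑ α, (-2 * (H 0 i j * ∑ a, ∑ b, H α a i * H α b j * H 0 a b) +
              2 * fip (H 0) (H α) * (H 0 i j * H α i j)) +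
              ((-2 * r) * (H 0 i j * H 0 i j) +
              (if i = j then 2 * r * (n * mt (H 0)) * H 0 i j else 0)) := by
          intro i j
          rw [sum_add_distrib, ← mul_sum, ← mul_sum]
          have : ∑ α, 2 * fip (H 0) (H α) * (H 0 i j * H α i j) =
              2 * H 0 i j * ∑ α, H α i j * fip (H 0) (H α) := by
            rw [mul_sum]
            exact sum_congr rfl fun α _ => by ring
          rw [this]
          split_ifs <;> ring
        simp only [c1]
        have c2 := S2 (n := n) (m := m + 1) (fun α i j =>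
          (-2 * (H 0 i j * ∑ a, ∑ b, H α a i * H α b j * H 0 a b) +
              2 * fip (H 0) (H α) * (H 0 i j * H α i j)))
          (fun i j => ((-2 * r) * (H 0 i j * H 0 i j) +
              (if i = j then 2 * r * (n * mt (H 0)) * H 0 i j else 0))) (fun _ _ => 1)
        simp only [mul_one] at c2
        rw [c2]
        have c3 : ∑ a, ∑ b, ((-2 * r) * (H 0 a b * H 0 a b) +
              (if a = b then 2 * r * (n * mt (H 0)) * H 0 a b else 0)) =
              - 2 * r * fip (H 0) (H 0) + 2 * r * (n * mt (H 0)) ^ 2 := by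
          simp only [sum_add_distrib, sum_ite_eq, mem_univ, if_true, ← mul_sum]
          rw [tr_mt hn]
          unfold fip
          ring
        rw [c3]
        have c4 : ∀ α, ∑ a, ∑ b, (-2 * (H 0 a b * ∑ a_1, ∑ b_1, H α a_1 a * H α b_1 b *
            H 0 a_1 b_1) + 2 * fip (H 0) (H α) * (H 0 a b * H α a b)) =
            -2 * (∑ i, ∑ j, H 0 i j * ∑ a, ∑ b, H α a i * H α b j * H 0 a b) +
            2 * fip (H 0) (H α) ^ 2 := by
          intro α
          simp only [sum_add_distrib, ← mul_sum]
          unfold fip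
          ring
        simp only [c4]
        ring
      rw [b1]
      have b2 : (∑ i, ∑ k, ∑ j, (∑ α, (∑ l, H α i l * H α k l) + (if i = k then r else 0)) *
          (H 0 i j * H 0 j k)) =
          ∑ α, (∑ i, ∑ k, ∑ j, (∑ l, H α i l * H α k l) * (H 0 i j * H 0 j k)) +
            r * fip (H 0) (H 0) := by
        have c1 : ∀ i k, ∑ j, (∑ α, (∑ l, H α i l * H α k l) + (if i = k then r else 0)) *
          (H 0 i j * H 0 j k) = (∑ α, (∑ l, H α i l * H α k l) + (if i = k then r else 0)) *
          (∑ j, H 0 i j * H 0 j k) := fun i k => by rw [mul_sum]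
        simp only [c1]
        rw [S2 (fun α i k => ∑ l, H α i l * H α k l) (fun i k => if i = k then r else 0)
          (fun i k => ∑ j, H 0 i j * H 0 j k)]
        congr 1
        · refine sum_congr rfl fun α _ => sum_congr rfl fun i _ => sum_congr rfl fun k _ => ?_
          rw [mul_sum]
        · unfold fip
          rw [mul_sum]
          refine sum_congr rfl fun i _ => ?_
          simp only [ite_mul, zero_mul, sum_ite_eq, mem_univ, if_true]
          congr 1
          refine sum_congr rfl fun j _ => ?_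
          rw [h.sy 0 j i]
      rw [b2]
      have b3 : ∀ α, cq (H 0) (H α) =
          2 * (∑ i, ∑ k, ∑ j, (∑ l, H α i l * H α k l) * (H 0 i j * H 0 j k)) -
          2 * (∑ i, ∑ j, H 0 i j * ∑ a, ∑ b, H α a i * H α b j * H 0 a b) :=
        fun α => cqF (h.sy 0) (h.sy α)
      have b4 : cq (H 0) (H 0) = 0 := by
        unfold cq
        simp
      have b5 : ∑ α, (-2 * (∑ i, ∑ j, H 0 i j * ∑ a, ∑ b, H α a i * H α b j * H 0 a b) +
            2 * fip (H 0) (H α) ^ 2) +
          2 * ∑ α, (∑ i, ∑ k, ∑ j, (∑ l, H α i l * H α k l) * (H 0 i j * H 0 j k)) =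
          ∑ α, (cq (H 0) (H α) + 2 * fip (H 0) (H α) ^ 2) := by
        rw [mul_sum, ← sum_add_distrib]
        refine sum_congr rfl fun α _ => ?_
        rw [b3 α]
        ring
      have b6 := Fin.sum_univ_succ (fun α => cq (H 0) (H α) + 2 * fip (H 0) (H α) ^ 2)
      rw [b4] at b6
      linear_combination b5 + b6
    rw [hRNa]
    have d1 : ∑ j : Fin m, n * mt (H j.succ) * fip (H 0) (H j.succ) =
        ∑ j : Fin m, fip (H 0) (H j.succ) * (n * mt (H j.succ)) :=
      sum_congr rfl fun j _ => by ring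
    have d2 : ∑ j : Fin m, fip (H 0) (H j.succ) * ip0 (H 0) (H j.succ) =
        ∑ j : Fin m, fip (H 0) (H j.succ) ^ 2 -
          mt (H 0) * ∑ j : Fin m, fip (H 0) (H j.succ) * (n * mt (H j.succ)) := by
      rw [mul_sum, ← sum_sub_distrib]
      refine sum_congr rfl fun j _ => ?_
      rw [ip0_fip hn]
      ring
    rw [d1, d2, ip0_fip hn, sum_add_distrib, ← mul_sum]
    field_simp
    ring
  · intro P Q hop h0 hmax
    unfold RN1
    rw [hk]
    have r1 : ∑ a, ∑ b, (inner ℝ (Av A P a) (Av A Q b) : ℝ) * H 0 a b =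
        ∑ α, bil (H 0) (mv (H α) P) (mv (H α) Q) + r * bil (H 0) P Q := by
      simp only [inVV h]
      rw [S2 (fun α a b => mv (H α) P a * mv (H α) Q b) (fun a b => r * (P a * Q b)) (H 0)]
      congr 1
      · refine sum_congr rfl fun α _ => ?_
        unfold bil
        exact sum_congr rfl fun a _ => sum_congr rfl fun b _ => by ring
      · unfold bil
        rw [mul_sum]
        refine sum_congr rfl fun a _ => ?_
        rw [mul_sum]
        exact sum_congr rfl fun b _ => by ring
    have r2 : ∑ a, ∑ b, (inner ℝ (bilV A P Q) (A a b) : ℝ) * H 0 a b =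
        ∑ α, bil (H α) P Q * fip (H 0) (H α) := by
      simp only [inBA h, hop.2.2, zero_mul, add_zero]
      have := S2 (fun α a b => bil (H α) P Q * H α a b) (fun _ _ => 0) (H 0)
      simp only [add_zero, zero_mul, sum_const_zero] at this
      rw [this]
      refine sum_congr rfl fun α _ => ?_
      rw [fip_comm]
      unfold fip
      rw [mul_sum]
      refine sum_congr rfl fun a _ => ?_
      rw [mul_sum]
      exact sum_congr rfl fun b _ => by ring
    have oPP : ∑ i, P i * P i = 1 := by
      rw [← hop.1]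
      exact sum_congr rfl fun i _ => by ring
    have oQQ : ∑ i, Q i * Q i = 1 := by
      rw [← hop.2.1]
      exact sum_congr rfl fun i _ => by ring
    have s1 : Sbl A P Q = ∑ α, (∑ i, mv (H α) P i * mv (H α) Q i) := by
      rw [sblA h, hop.2.2, mul_zero, add_zero]
    have s2 : Sbl A P P = ∑ α, (∑ i, mv (H α) P i ^ 2) + r := by
      rw [sblA h, oPP, mul_one]
      congr 1
      exact sum_congr rfl fun α _ => sum_congr rfl fun i _ => by ring
    have s3 : Sbl A Q Q = ∑ α, (∑ i, mv (H α) Q i ^ 2) + r := by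
      rw [sblA h, oQQ, mul_one]
      congr 1
      exact sum_congr rfl fun α _ => sum_congr rfl fun i _ => by ring
    rw [r1, r2, s1, s2, s3]
    -- the term of `K`
    have hz : bil (H 0) P Q * QB (H 0) (H 0) P Q = 0 := by
      rcases eq_or_lt_of_le h0 with h00 | h00
      · rw [← h00, zero_mul]
      · have hm : MXP (H 0) (fun _ _ => (0 : ℝ)) P Q (bil (H 0) P Q) :=
          { sK := h.sy 0
            sb := fun _ _ => rfl
            op := hop
            KPQ := rfl
            bPQ := by simp [bil]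
            mu0 := h00
            mx := fun c d hcd => by
              have : bil (fun _ _ : Fin n => (0 : ℝ)) c d = 0 := by simp [bil]
              rw [this]
              have := hmax c d hcd
              linarith }
        obtain ⟨q1, q2, q3, _, _⟩ := hPXE n hn (H 0) (fun _ _ => 0) P Q _ hm _ rfl
        set k0 := bil (H 0) P P with hk0
        set μ := bil (H 0) P Q with hμ
        have m1 : mv (H 0) P = fun i => k0 * P i + μ * Q i := funext q2
        have m2 : mv (H 0) Q = fun i => k0 * Q i + μ * P i := funext q3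
        have bl : ∀ a b c d : ℝ, bil (H 0) (fun i => a * P i + b * Q i)
            (fun i => c * Q i + d * P i) = a * c * bil (H 0) P Q + a * d * bil (H 0) P P +
            b * c * bil (H 0) Q Q + b * d * bil (H 0) Q P := by
          intro a b c d
          unfold bil
          simp only [mul_sum, ← sum_add_distrib]
          exact sum_congr rfl fun i _ => sum_congr rfl fun j _ => by ring
        have bs : bil (H 0) Q P = bil (H 0) P Q := by
          unfold bil
          rw [sum_comm]
          refine sum_congr rfl fun i _ => sum_congr rfl fun j _ => ?_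
          rw [h.sy 0 j i]
          ring
        have t1 : ∑ i, (k0 * P i + μ * Q i) * (k0 * Q i + μ * P i) = 2 * k0 * μ := by
          have : ∀ i, (k0 * P i + μ * Q i) * (k0 * Q i + μ * P i) =
              (k0 ^ 2 + μ ^ 2) * (P i * Q i) + k0 * μ * (P i ^ 2) + k0 * μ * (Q i ^ 2) :=
            fun i => by ring
          simp only [this, sum_add_distrib, ← mul_sum]
          rw [hop.1, hop.2.1, hop.2.2]
          ring
        have t2 : ∑ i, (k0 * P i + μ * Q i) ^ 2 = k0 ^ 2 + μ ^ 2 := by
          have : ∀ i, (k0 * P i + μ * Q i) ^ 2 =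
              (2 * k0 * μ) * (P i * Q i) + k0 ^ 2 * (P i ^ 2) + μ ^ 2 * (Q i ^ 2) :=
            fun i => by ring
          simp only [this, sum_add_distrib, ← mul_sum]
          rw [hop.1, hop.2.1, hop.2.2]
          ring
        have t3 : ∑ i, (k0 * Q i + μ * P i) ^ 2 = k0 ^ 2 + μ ^ 2 := by
          have : ∀ i, (k0 * Q i + μ * P i) ^ 2 =
              (2 * k0 * μ) * (P i * Q i) + k0 ^ 2 * (Q i ^ 2) + μ ^ 2 * (P i ^ 2) :=
            fun i => by ring
          simp only [this, sum_add_distrib, ← mul_sum]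
          rw [hop.1, hop.2.1, hop.2.2]
          ring
        unfold QB
        rw [m1, m2, bl, bs, q1, t1, t2, t3]
        ring
    have hsum : ∑ α, (QB (H 0) (H α) P Q + 2 * (bil (H α) P Q * fip (H 0) (H α))) =
        -2 * ∑ α, bil (H 0) (mv (H α) P) (mv (H α) Q)
        + 2 * bil (H 0) P P * ∑ α, (∑ i, mv (H α) P i * mv (H α) Q i)
        + bil (H 0) P Q * (∑ α, (∑ i, mv (H α) P i ^ 2) + ∑ α, (∑ i, mv (H α) Q i ^ 2))
        + 2 * ∑ α, bil (H α) P Q * fip (H 0) (H α) := by
      have hq : ∀ α, QB (H 0) (H α) P Q + 2 * (bil (H α) P Q * fip (H 0) (H α)) =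
          -2 * bil (H 0) (mv (H α) P) (mv (H α) Q)
          + 2 * bil (H 0) P P * (∑ i, mv (H α) P i * mv (H α) Q i)
          + bil (H 0) P Q * (∑ i, mv (H α) P i ^ 2 + ∑ i, mv (H α) Q i ^ 2)
          + 2 * (bil (H α) P Q * fip (H 0) (H α)) := by
        intro α
        unfold QB
        ring
      rw [sum_congr rfl fun α _ => hq α, sum_add_distrib, sum_add_distrib, sum_add_distrib,
        ← mul_sum, ← mul_sum, ← mul_sum, ← mul_sum, sum_add_distrib]
    have hsp := Fin.sum_univ_succ
      (fun α => QB (H 0) (H α) P Q + 2 * (bil (H α) P Q * fip (H 0) (H α)))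
    have hfin : ∑ j : Fin m, (QB (H 0) (H j.succ) P Q +
        2 * (bil (H j.succ) P Q * fip (H 0) (H j.succ))) =
        ∑ j : Fin m, QB (H 0) (H j.succ) P Q +
          2 * ∑ j : Fin m, bil (H j.succ) P Q * fip (H 0) (H j.succ) := by
      rw [sum_add_distrib, mul_sum]
    rw [hfin, hsum] at hsp
    linear_combination (bil (H 0) P Q) * hsp + hz

end Helper45.HG
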