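import Pool.Agent.Helper80.HG.St

/-! Project HG (MP_1bacb5_al), module DP. -/

set_option autoImplicit false

namespace Pool.Agent.Helper45.HG

open Pool.Agent.Helper80.HG Filter Topology Asymptotics

theorem DP_pos {H : Set (ℝ → ℝ)} (B : Bas H) {η : ℝ → ℝ} (hη : η ∈ H) (h0 : Tendsto η atTop (𝓝 0))
    (hp : ∀ᶠ x in atTop, 0 < η x) {η' : ℝ → ℝ} (hd : ∀ᶠ x in atTop, HasDerivAt η (η' x) x) {δ : ℝ}
    (hδ : 0 < δ) : ∀ᶠ x in atTop, |η' x| ≤ |η x| ^ (1 - δ) := by
  obtain ⟨hL, hLt⟩ := B.nlog η hη hp h0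
  have h1 : (fun x => δ * (-Real.log (η x))) ∈ H := B.smul δ _ hL
  have h2 : Tendsto (fun x => δ * (-Real.log (η x))) atTop atTop := hLt.const_mul_atTop hδ
  obtain ⟨h3, h4⟩ := B.eneg _ h1 h2
  have h5 : ∀ᶠ x in atTop, HasDerivAt (fun x => Real.exp (-(δ * (-Real.log (η x)))))
      (Real.exp (-(δ * (-Real.log (η x)))) * (-(δ * (-(η' x / η x))))) x := by
    filter_upwards [hp, hd] with x hx hdx
    exact (((hdx.log hx.ne').neg.const_mul δ).neg).exp
  have h6 := B.dlim _ h3 0 _ h4 h5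
  have h7 : ∀ᶠ x in atTop, |Real.exp (-(δ * (-Real.log (η x)))) * (-(δ * (-(η' x / η x))))| < δ := by
    refine ((Metric.tendsto_nhds.1 h6) δ hδ).mono fun x hx => ?_
    rw [Real.dist_eq, sub_zero] at hx
    exact hx
  filter_upwards [hp, h7] with x hx h
  have e1 : Real.exp (-(δ * (-Real.log (η x)))) = η x ^ δ := by
    rw [Real.rpow_def_of_pos hx]
    congr 1
    ring
  rw [e1] at h
  have hpow : 0 < η x ^ δ := Real.rpow_pos_of_pos hx δ
  have e2 : |η x ^ δ * (-(δ * (-(η' x / η x))))| = δ * (|η' x| * (η x ^ δ / η x)) := by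
    have : η x ^ δ * (-(δ * (-(η' x / η x)))) = δ * (η' x * (η x ^ δ / η x)) := by
      field_simp
    rw [this, abs_mul, abs_mul, abs_of_pos hδ, abs_of_pos (div_pos hpow hx)]
  rw [e2] at h
  have h8 : |η' x| * (η x ^ δ / η x) < 1 := by
    have : δ * (|η' x| * (η x ^ δ / η x)) < δ * 1 := by rw [mul_one]; exact h
    exact lt_of_mul_lt_mul_left this hδ.le
  rw [abs_of_pos hx, Real.rpow_sub hx, Real.rpow_one]
  rw [le_div_iff₀ hpow]
  have h9 : |η' x| * (η x ^ δ / η x) * η x < 1 * η x := mul_lt_mul_of_pos_right h8 hx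
  have h10 : |η' x| * (η x ^ δ / η x) * η x = |η' x| * η x ^ δ := by
    field_simp
  rw [h10, one_mul] at h9
  exact h9.le

theorem hDP : StDP := by
  intro H B η hη h0 η' hd δ hδ hδ1
  rcases B.sign η hη with hz | hp | hn
  · obtain ⟨M, hM⟩ := eventually_atTop.1 hz
    filter_upwards [hd, eventually_gt_atTop M] with x hx hxM
    have h1 : η =ᶠ[𝓝 x] fun _ => 0 := by
      filter_upwards [lt_mem_nhds hxM] with y hy
      exact hM y hy.le
    have h2 : HasDerivAt η 0 x := (hasDerivAt_const x (0 : ℝ)).congr_of_eventuallyEq h1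
    rw [hx.unique h2, hM x hxM.le, abs_zero, Real.zero_rpow (by linarith)]
  · exact DP_pos B hη h0 hp hd hδ
  · have h1 := DP_pos B (B.neg η hη) (by simpa using h0.neg) (hn.mono fun x hx => neg_pos.2 hx)
      (η' := fun x => - η' x) (hd.mono fun x hx => hx.neg) hδ
    filter_upwards [h1] with x hx
    simpa [abs_neg] using hx

end Pool.Agent.Helper45.HG
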